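import Pool.Agent.W188.QS.Stm

set_option autoImplicit false

/-!
# Project QS, part MEL: the Mellin representation of the oscillatory integral
-/

open Complex MeasureTheory Set Filter Topology

namespace Pool.Agent.W372.QS

open Pool.Agent.W188.QS

/-! ## the Gamma integral on a rotated ray (same proof as in `Helper242.KK.Gam1`) -/

private lemma int_rpow_exp {s b : ℝ} (hs : -1 < s) (hb : 0 < b) :
    IntegrableOn (fun x : ℝ => x ^ s * Real.exp (-(b * x))) (Ioi 0) := by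
  have h := integrableOn_rpow_mul_exp_neg_mul_rpow hs one_pos hb
  refine h.congr_fun (fun x _ => ?_) measurableSet_Ioi
  simp only [Real.rpow_one, neg_mul]

private lemma cpow_exp_meas (a r : ℂ) :
    AEStronglyMeasurable (fun t : ℝ => (t : ℂ) ^ (a - 1) * Complex.exp (-(r * t)))
      (volume.restrict (Ioi 0)) := by
  refine ContinuousOn.aestronglyMeasurable ?_ measurableSet_Ioi
  refine ContinuousOn.mul ?_ (by fun_prop)
  intro t ht
  exact (Complex.continuousAt_ofReal_cpow_const t (a - 1) (Or.inr (ne_of_gt ht))).continuousWithinAt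

private lemma rot_deriv {a r : ℂ} (ha : 0 < a.re) (hr : 0 < r.re) :
    HasDerivAt (fun r : ℂ => ∫ t : ℝ in Ioi 0, (t : ℂ) ^ (a - 1) * Complex.exp (-(r * t)))
      (∫ t : ℝ in Ioi 0, (t : ℂ) ^ (a - 1) * (Complex.exp (-(r * t)) * (-(1 * t)))) r := by
  have hpos : 0 < r.re / 2 := by positivity
  refine (hasDerivAt_integral_of_dominated_loc_of_deriv_le (μ := volume.restrict (Ioi (0:ℝ)))
    (F := fun (r : ℂ) (t : ℝ) => (t : ℂ) ^ (a - 1) * Complex.exp (-(r * t)))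
    (F' := fun (r : ℂ) (t : ℝ) => (t : ℂ) ^ (a - 1) * (Complex.exp (-(r * t)) * (-(1 * t))))
    (s := Metric.ball r (r.re / 2)) (bound := fun t : ℝ => t ^ a.re * Real.exp (-(r.re / 2 * t)))
    (Metric.ball_mem_nhds r hpos) ?_ ?_ ?_ ?_ ?_ ?_).2
  · exact Eventually.of_forall fun r => cpow_exp_meas a r
  · refine Integrable.mono' (int_rpow_exp (s := a.re - 1) (b := r.re) (by linarith) hr)
      (cpow_exp_meas a r) ?_
    refine (ae_restrict_iff' measurableSet_Ioi).2 (Eventually.of_forall fun t ht => ?_)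
    have ht0 : (0:ℝ) < t := ht
    rw [norm_mul, Complex.norm_cpow_eq_rpow_re_of_pos ht0, Complex.norm_exp]
    simp
  · have h := (cpow_exp_meas a r).mul (f := fun t : ℝ => (t : ℂ) ^ (a - 1) * Complex.exp (-(r * t)))
      (g := fun t : ℝ => (-(1 * (t : ℂ)))) (by fun_prop)
    refine h.congr (Eventually.of_forall fun t => ?_)
    simp only [Pi.mul_apply]
    ring
  · refine (ae_restrict_iff' measurableSet_Ioi).2 (Eventually.of_forall fun t ht z hz => ?_)
    have ht0 : (0:ℝ) < t := ht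
    have hz' : r.re / 2 ≤ z.re := by
      have h1 : ‖z - r‖ < r.re / 2 := by simpa [dist_eq_norm] using hz
      have h2 := (abs_le.1 ((Complex.abs_re_le_norm (z - r)).trans h1.le)).1
      rw [Complex.sub_re] at h2
      linarith
    rw [norm_mul, Complex.norm_cpow_eq_rpow_re_of_pos ht0, norm_mul, Complex.norm_exp]
    have e1 : ‖(-(1 * (t : ℂ)))‖ = t := by
      rw [one_mul, norm_neg, Complex.norm_real, Real.norm_of_nonneg ht0.le]
    have e2 : (a - 1).re = a.re - 1 := by simp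
    have e3 : (-(z * (t : ℂ))).re = -(z.re * t) := by simp
    rw [e1, e2, e3]
    have e4 : t ^ a.re = t ^ (a.re - 1) * t := by
      rw [← Real.rpow_add_one ht0.ne']; congr 1; ring
    rw [e4]
    have h5 : Real.exp (-(z.re * t)) ≤ Real.exp (-(r.re / 2 * t)) :=
      Real.exp_le_exp.2 (neg_le_neg (mul_le_mul_of_nonneg_right hz' ht0.le))
    have h6 : 0 ≤ t ^ (a.re - 1) * t := by positivity
    calc t ^ (a.re - 1) * (Real.exp (-(z.re * t)) * t) =
        t ^ (a.re - 1) * t * Real.exp (-(z.re * t)) := by ring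
      _ ≤ _ := mul_le_mul_of_nonneg_left h5 h6
  · exact int_rpow_exp (by linarith) hpos
  · refine Eventually.of_forall fun t z _ => ?_
    exact ((((hasDerivAt_id z).mul_const (t : ℂ)).neg).cexp).const_mul _

private lemma rot_formula {a r : ℂ} (ha : 0 < a.re) (hr : 0 < r.re) :
    ∫ t : ℝ in Ioi 0, (t : ℂ) ^ (a - 1) * Complex.exp (-(r * t)) = (1 / r) ^ a * Complex.Gamma a := by
  have hU : IsOpen {z : ℂ | 0 < z.re} := isOpen_lt continuous_const Complex.continuous_re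
  have hpre : IsPreconnected {z : ℂ | 0 < z.re} := (convex_halfSpace_re_gt 0).isPreconnected
  have h1 : AnalyticOnNhd ℂ (fun r : ℂ => ∫ t : ℝ in Ioi 0, (t : ℂ) ^ (a - 1) * Complex.exp (-(r * t)))
      {z : ℂ | 0 < z.re} := by
    refine DifferentiableOn.analyticOnNhd (fun z hz => ?_) hU
    exact (rot_deriv ha hz).differentiableAt.differentiableWithinAt
  have h2 : AnalyticOnNhd ℂ (fun r : ℂ => (1 / r) ^ a * Complex.Gamma a) {z : ℂ | 0 < z.re} := by
    refine DifferentiableOn.analyticOnNhd (fun z hz => ?_) hU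
    have hz0 : z ≠ 0 := by
      rintro rfl
      simp at hz
    have hz1 : 0 < (1 / z).re := by
      rw [one_div, Complex.inv_re]
      exact div_pos hz (Complex.normSq_pos.2 hz0)
    have h3 : DifferentiableAt ℂ (fun r : ℂ => 1 / r) z := by
      simp only [one_div]
      exact differentiableAt_inv hz0
    exact ((h3.cpow_const (Or.inl hz1)).mul_const _).differentiableWithinAt
  refine h1.eqOn_of_preconnected_of_frequently_eq h2 hpre (z₀ := 1) (by simp) ?_ hr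
  have ht : Tendsto (fun x : ℝ => (x : ℂ)) (𝓝[≠] 1) (𝓝[≠] (1 : ℂ)) := by
    refine tendsto_nhdsWithin_iff.2 ⟨?_, ?_⟩
    · exact (Complex.continuous_ofReal.tendsto' (1:ℝ) (1:ℂ) (by simp)).mono_left nhdsWithin_le_nhds
    · filter_upwards [self_mem_nhdsWithin] with x hx
      simp only [mem_compl_iff, mem_singleton_iff] at hx ⊢
      exact_mod_cast hx
  refine ht.frequently (Eventually.frequently ?_)
  have h0 : ∀ᶠ x : ℝ in 𝓝[≠] 1, 0 < x := nhdsWithin_le_nhds (lt_mem_nhds one_pos)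
  filter_upwards [h0] with x hx
  exact Complex.integral_cpow_mul_exp_neg_mul_Ioi ha hx

/-! ## the change of variables `x = exp y` -/

theorem exp_image : Real.exp '' univ = Ioi (0 : ℝ) := by
  rw [image_univ, Real.range_exp]

theorem gamma_y {s z : ℂ} (hs : 0 < s.re) (hz : 0 < z.re) :
    ∫ y : ℝ, cexp (-z * Real.exp y) * cexp (s * y) = (1 / z) ^ s * Complex.Gamma s := by
  rw [← rot_formula hs hz, ← exp_image, integral_image_eq_integral_abs_deriv_smul
    MeasurableSet.univ (fun x _ => (Real.hasDerivAt_exp x).hasDerivWithinAt)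
    Real.exp_injective.injOn, setIntegral_univ]
  refine integral_congr_ae (Eventually.of_forall fun y => ?_)
  simp only
  rw [abs_of_pos (Real.exp_pos y), Complex.real_smul]
  have h0 : ((Real.exp y : ℝ) : ℂ) ≠ 0 := by
    exact_mod_cast (Real.exp_pos y).ne'
  have h1 : cexp (s * y) = ((Real.exp y : ℝ) : ℂ) * ((Real.exp y : ℝ) : ℂ) ^ (s - 1) := by
    rw [Complex.cpow_sub _ _ h0, Complex.cpow_one, mul_div_cancel₀ _ h0, Complex.cpow_def_of_ne_zero h0,
      ← Complex.ofReal_log (Real.exp_pos y).le, Real.log_exp, mul_comm]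
  rw [h1, neg_mul]
  ring

theorem int_y {ε : ℝ} (hε : 0 < ε) : Integrable (fun y : ℝ => Real.exp (-ε * Real.exp y) * Real.exp (4 * y)) := by
  have h := int_rpow_exp (s := 3) (b := ε) (by norm_num) hε
  rw [← exp_image, integrableOn_image_iff_integrableOn_abs_deriv_smul
    MeasurableSet.univ (fun x _ => (Real.hasDerivAt_exp x).hasDerivWithinAt)
    Real.exp_injective.injOn, integrableOn_univ] at h
  refine h.congr (Eventually.of_forall fun y => ?_)
  simp only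
  rw [abs_of_pos (Real.exp_pos y), smul_eq_mul, ← Real.exp_mul, ← mul_assoc, ← Real.exp_add, mul_comm]
  congr 2 <;> ring

/-! ## the Gaussian -/

theorem GG_eq {T Δ : ℝ} (hΔ : 1 ≤ Δ) (a : ℂ) (t : ℝ) :
    cexp (a * t) * GG T Δ (fp t) = cexp ((-(1 / Δ ^ 2 : ℝ) : ℂ) * t ^ 2 +
      (a + (2 * T / Δ ^ 2 : ℝ) + (7 / Δ ^ 2 : ℝ) * I) * t +
      ((49 / (4 * Δ ^ 2) - T ^ 2 / Δ ^ 2 : ℝ) - (7 * T / Δ ^ 2 : ℝ) * I)) := by
  have h0 : (Δ : ℂ) ≠ 0 := by
    have : Δ ≠ 0 := by linarith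
    exact_mod_cast this
  rw [GG, ← Complex.exp_add, fp, cp]
  congr 1
  push_cast
  field_simp
  ring_nf
  simp only [I_sq]
  ring

theorem int_GG {T Δ : ℝ} (hΔ : 1 ≤ Δ) (a : ℂ) :
    Integrable (fun t : ℝ => cexp (a * t) * GG T Δ (fp t)) := by
  have hb : ((-(1 / Δ ^ 2 : ℝ) : ℂ)).re < 0 := by
    rw [← Complex.ofReal_neg, Complex.ofReal_re]
    have : 0 < 1 / Δ ^ 2 := by positivity
    linarith
  simp_rw [GG_eq hΔ]
  exact integrable_cexp_quadratic' hb _ _

theorem integral_GG {T Δ : ℝ} (hΔ : 1 ≤ Δ) (y : ℝ) :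
    ∫ t : ℝ, cexp (fp t * y) * GG T Δ (fp t) =
      ((√Real.pi * Δ : ℝ) : ℂ) * cexp ((1 / 2 + (T : ℂ) * I) * y - (Δ : ℂ) ^ 2 * (y : ℂ) ^ 2 / 4) := by
  have hD : 0 < Δ := by linarith
  have h0 : (Δ : ℂ) ≠ 0 := by
    exact_mod_cast hD.ne'
  have hb : ((-(1 / Δ ^ 2 : ℝ) : ℂ)).re < 0 := by
    rw [← Complex.ofReal_neg, Complex.ofReal_re]
    have : 0 < 1 / Δ ^ 2 := by positivity
    linarith
  have h1 : ∀ t : ℝ, cexp (fp t * y) * GG T Δ (fp t) = cexp (4 * y) * (cexp ((y * I) * t) * GG T Δ (fp t)) := by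
    intro t
    rw [← mul_assoc, ← Complex.exp_add]
    congr 2
    rw [fp]
    ring
  simp_rw [h1]
  rw [integral_const_mul]
  simp_rw [GG_eq hΔ]
  rw [integral_cexp_quadratic hb]
  have h2 : ((Real.pi : ℂ) / -(-(1 / Δ ^ 2 : ℝ) : ℂ)) ^ (1 / 2 : ℂ) = ((√Real.pi * Δ : ℝ) : ℂ) := by
    have h3 : (Real.pi : ℂ) / -(-(1 / Δ ^ 2 : ℝ) : ℂ) = ((Real.pi * Δ ^ 2 : ℝ) : ℂ) := by
      push_cast
      field_simp
    rw [h3]
    have h4 : (1 / 2 : ℂ) = ((1 / 2 : ℝ) : ℂ) := by push_cast; rfl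
    rw [h4, ← Complex.ofReal_cpow (by positivity), ← Real.sqrt_eq_rpow, Real.sqrt_mul Real.pi_pos.le,
      Real.sqrt_sq hD.le]
  rw [h2, mul_left_comm, ← Complex.exp_add]
  congr 2
  push_cast
  field_simp
  ring_nf
  simp only [I_sq]
  ring

/-! ## the main identity for `ε > 0` -/

/-- the number `ε + 2 π i σ n` -/
noncomputable def zz (n : ℕ) (σ ε : ℝ) : ℂ := (ε : ℂ) + (σ : ℂ) * 2 * Real.pi * n * I

theorem zz_re (n : ℕ) (σ ε : ℝ) : (zz n σ ε).re = ε := by
  simp [zz]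

theorem zz_im (n : ℕ) (σ ε : ℝ) : (zz n σ ε).im = σ * 2 * Real.pi * n := by
  simp [zz]

theorem fp_re (t : ℝ) : (fp t).re = 4 := by simp [fp]

theorem fp_im (t : ℝ) : (fp t).im = t := by simp [fp]

theorem fp_cont : Continuous fp := by
  unfold fp
  fun_prop

theorem GG_cont (T Δ : ℝ) : Continuous (fun t : ℝ => GG T Δ (fp t)) := by
  unfold GG fp
  fun_prop

theorem prod_int {T Δ ε : ℝ} (hΔ : 1 ≤ Δ) (hε : 0 < ε) (n : ℕ) (σ : ℝ) :
    Integrable (Function.uncurry fun t y : ℝ => cexp (-zz n σ ε * Real.exp y) * cexp (fp t * y) *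
      GG T Δ (fp t)) (volume.prod volume) := by
  have h1 : Integrable (fun t : ℝ => ‖GG T Δ (fp t)‖) := by
    have := (int_GG (T := T) hΔ 0).norm
    simpa using this
  have h2 := h1.mul_prod (int_y hε)
  refine Integrable.mono' h2 (Continuous.aestronglyMeasurable ?_) (Eventually.of_forall fun p => ?_)
  · unfold Function.uncurry
    have h3 := (GG_cont T Δ).comp (continuous_fst : Continuous (Prod.fst : ℝ × ℝ → ℝ))
    have h4 := fp_cont.comp (continuous_fst : Continuous (Prod.fst : ℝ × ℝ → ℝ))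
    fun_prop
  · rcases p with ⟨t, y⟩
    simp only [Function.uncurry_apply_pair]
    rw [norm_mul, norm_mul, Complex.norm_exp, Complex.norm_exp]
    have e1 : (-zz n σ ε * (Real.exp y : ℝ)).re = -ε * Real.exp y := by
      rw [Complex.re_mul_ofReal, Complex.neg_re, zz_re]
    have e2 : (fp t * y).re = 4 * y := by
      rw [Complex.re_mul_ofReal, fp_re]
    rw [e1, e2, mul_comm]

theorem main_eps {T Δ ε : ℝ} (hΔ : 1 ≤ Δ) (hε : 0 < ε) (n : ℕ) (σ : ℝ) :
    ∫ t : ℝ, Complex.Gamma (fp t) * (1 / zz n σ ε) ^ (fp t) * GG T Δ (fp t) =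
      ((√Real.pi * Δ : ℝ) : ℂ) * Ke T Δ n σ ε := by
  have h1 : ∀ t : ℝ, Complex.Gamma (fp t) * (1 / zz n σ ε) ^ (fp t) * GG T Δ (fp t) =
      ∫ y : ℝ, cexp (-zz n σ ε * Real.exp y) * cexp (fp t * y) * GG T Δ (fp t) := by
    intro t
    rw [integral_mul_const, gamma_y (by rw [fp_re]; norm_num) (by rw [zz_re]; exact hε)]
    ring
  simp_rw [h1]
  rw [integral_integral_swap (prod_int hΔ hε n σ), Ke, ← integral_const_mul]
  refine integral_congr_ae (Eventually.of_forall fun y => ?_)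
  simp only
  have h2 : ∀ t : ℝ, cexp (-zz n σ ε * Real.exp y) * cexp (fp t * y) * GG T Δ (fp t) =
      cexp (-zz n σ ε * Real.exp y) * (cexp (fp t * y) * GG T Δ (fp t)) := fun t => by ring
  simp_rw [h2]
  rw [integral_const_mul, integral_GG hΔ, zz]
  ring

/-! ## the limit -/

theorem norm_Gamma_fp (t : ℝ) : ‖Complex.Gamma (fp t)‖ ≤ 6 := by
  have h := rot_formula (a := fp t) (r := 1) (by rw [fp_re]; norm_num) (by norm_num)
  rw [div_one, Complex.one_cpow, one_mul] at h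
  rw [← h]
  refine (norm_integral_le_integral_norm _).trans ?_
  have h2 := Real.integral_rpow_mul_exp_neg_mul_Ioi (a := 4) (r := 1) (by norm_num) (by norm_num)
  have h3 : Real.Gamma 4 = 6 := by
    rw [show (4 : ℝ) = (3 : ℕ) + 1 by norm_num, Real.Gamma_nat_eq_factorial]
    norm_num [Nat.factorial]
  rw [div_one, Real.one_rpow, one_mul, h3] at h2
  rw [← h2]
  refine (setIntegral_congr_fun measurableSet_Ioi fun x hx => ?_).le
  have hx0 : (0 : ℝ) < x := hx
  rw [norm_mul, Complex.norm_cpow_eq_rpow_re_of_pos hx0, Complex.norm_exp]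
  simp [fp_re]

theorem Gamma_cont : Continuous (fun t : ℝ => Complex.Gamma (fp t)) := by
  rw [continuous_iff_continuousAt]
  intro t
  have h1 : ContinuousAt Complex.Gamma (fp t) := by
    refine (Complex.differentiableAt_Gamma _ fun m hm => ?_).continuousAt
    have := congrArg Complex.re hm
    rw [fp_re] at this
    simp at this
    have h2 : (0 : ℝ) ≤ m := Nat.cast_nonneg m
    linarith
  exact h1.comp fp_cont.continuousAt

theorem zz_lower {n : ℕ} (hn : 1 ≤ n) {σ : ℝ} (hσ : σ = 1 ∨ σ = -1) (ε : ℝ) : 1 ≤ ‖zz n σ ε‖ := by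
  refine le_trans ?_ (Complex.abs_im_le_norm _)
  rw [zz_im, abs_mul, abs_mul, abs_mul]
  have h1 : |σ| = 1 := by rcases hσ with rfl | rfl <;> simp
  have h2 : (1 : ℝ) ≤ n := by exact_mod_cast hn
  rw [h1, abs_of_pos (by norm_num : (0 : ℝ) < 2), abs_of_pos Real.pi_pos, abs_of_nonneg (by linarith : (0 : ℝ) ≤ n)]
  have := Real.pi_gt_three
  nlinarith

theorem zz_ne {n : ℕ} (hn : 1 ≤ n) {σ : ℝ} (hσ : σ = 1 ∨ σ = -1) (ε : ℝ) : zz n σ ε ≠ 0 := by
  intro h
  have := zz_lower hn hσ ε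
  rw [h, norm_zero] at this
  linarith

theorem inv_slit {n : ℕ} (hn : 1 ≤ n) {σ : ℝ} (hσ : σ = 1 ∨ σ = -1) (ε : ℝ) : 1 / zz n σ ε ∈ slitPlane := by
  rw [Complex.mem_slitPlane_iff]
  right
  rw [one_div, Complex.inv_im, zz_im]
  have h0 := Complex.normSq_pos.2 (zz_ne hn hσ ε)
  have h1 : σ ≠ 0 := by rcases hσ with rfl | rfl <;> norm_num
  have h2 : (n : ℝ) ≠ 0 := by positivity
  exact div_ne_zero (neg_ne_zero.2 (mul_ne_zero (mul_ne_zero (mul_ne_zero h1 two_ne_zero) Real.pi_pos.ne') h2)) h0.ne'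

/-- the dominating function -/
noncomputable def bd (T Δ t : ℝ) : ℝ :=
  6 * (‖cexp ((Real.pi : ℂ) * t) * GG T Δ (fp t)‖ + ‖cexp ((-Real.pi : ℂ) * t) * GG T Δ (fp t)‖)

theorem bd_int {T Δ : ℝ} (hΔ : 1 ≤ Δ) : Integrable (bd T Δ) :=
  ((int_GG hΔ _).norm.add (int_GG hΔ _).norm).const_mul 6

theorem meas_eps (T Δ : ℝ) {n : ℕ} (hn : 1 ≤ n) {σ : ℝ} (hσ : σ = 1 ∨ σ = -1) (ε : ℝ) :
    AEStronglyMeasurable (fun t : ℝ => Complex.Gamma (fp t) * (1 / zz n σ ε) ^ (fp t) * GG T Δ (fp t)) volume := by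
  refine Continuous.aestronglyMeasurable ?_
  refine (Gamma_cont.mul ?_).mul (GG_cont T Δ)
  have h0 : 1 / zz n σ ε ≠ 0 := one_div_ne_zero (zz_ne hn hσ ε)
  exact fp_cont.const_cpow (Or.inl h0)

theorem bound_eps (T Δ : ℝ) {n : ℕ} (hn : 1 ≤ n) {σ : ℝ} (hσ : σ = 1 ∨ σ = -1) (ε t : ℝ) :
    ‖Complex.Gamma (fp t) * (1 / zz n σ ε) ^ (fp t) * GG T Δ (fp t)‖ ≤ bd T Δ t := by
  rw [norm_mul, norm_mul]
  have h1 := norm_Gamma_fp t
  have h2 : ‖(1 / zz n σ ε) ^ (fp t)‖ ≤ ‖cexp ((Real.pi : ℂ) * t)‖ + ‖cexp ((-Real.pi : ℂ) * t)‖ := by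
    refine (Complex.norm_cpow_le _ _).trans ?_
    rw [fp_re, fp_im]
    have h3 : ‖1 / zz n σ ε‖ ^ (4 : ℝ) ≤ 1 := by
      refine Real.rpow_le_one (norm_nonneg _) ?_ (by norm_num)
      rw [norm_div, norm_one]
      exact (div_le_one (by linarith [zz_lower hn hσ ε])).2 (zz_lower hn hσ ε)
    have h4 : Real.exp (-(Complex.arg (1 / zz n σ ε) * t)) ≤ ‖cexp ((Real.pi : ℂ) * t)‖ + ‖cexp ((-Real.pi : ℂ) * t)‖ := by
      rw [Complex.norm_exp, Complex.norm_exp, Complex.re_mul_ofReal, Complex.re_mul_ofReal, Complex.neg_re,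
        Complex.ofReal_re]
      have ha1 := Complex.arg_le_pi (1 / zz n σ ε)
      have ha2 := (Complex.neg_pi_lt_arg (1 / zz n σ ε)).le
      rcases le_total 0 t with ht | ht
      · have : Real.exp (-(Complex.arg (1 / zz n σ ε) * t)) ≤ Real.exp (Real.pi * t) := by
          apply Real.exp_le_exp.2
          nlinarith
        linarith [Real.exp_pos (-Real.pi * t)]
      · have : Real.exp (-(Complex.arg (1 / zz n σ ε) * t)) ≤ Real.exp (-Real.pi * t) := by
          apply Real.exp_le_exp.2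
          nlinarith
        linarith [Real.exp_pos (Real.pi * t)]
    rw [div_eq_mul_inv, ← Real.exp_neg]
    calc _ ≤ 1 * Real.exp (-(Complex.arg (1 / zz n σ ε) * t)) :=
          mul_le_mul_of_nonneg_right h3 (Real.exp_pos _).le
      _ ≤ _ := by rw [one_mul]; exact h4
  rw [bd, norm_mul, norm_mul]
  have h5 := norm_nonneg (GG T Δ (fp t))
  calc ‖Complex.Gamma (fp t)‖ * ‖(1 / zz n σ ε) ^ (fp t)‖ * ‖GG T Δ (fp t)‖
      ≤ 6 * (‖cexp ((Real.pi : ℂ) * t)‖ + ‖cexp ((-Real.pi : ℂ) * t)‖) * ‖GG T Δ (fp t)‖ := by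
        refine mul_le_mul_of_nonneg_right (mul_le_mul h1 h2 (norm_nonneg _) (by norm_num)) h5
    _ = _ := by ring

theorem lim_sigma {T Δ : ℝ} (hΔ : 1 ≤ Δ) {n : ℕ} (hn : 1 ≤ n) {σ : ℝ} (hσ : σ = 1 ∨ σ = -1) :
    Tendsto (fun ε : ℝ => ∫ t : ℝ, Complex.Gamma (fp t) * (1 / zz n σ ε) ^ (fp t) * GG T Δ (fp t))
      (𝓝[>] 0) (𝓝 (∫ t : ℝ, Complex.Gamma (fp t) * (1 / zz n σ 0) ^ (fp t) * GG T Δ (fp t))) := by
  refine tendsto_integral_filter_of_dominated_convergence (bd T Δ)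
    (Eventually.of_forall fun ε => meas_eps T Δ hn hσ ε)
    (Eventually.of_forall fun ε => Eventually.of_forall fun t => bound_eps T Δ hn hσ ε t) (bd_int hΔ)
    (Eventually.of_forall fun t => ?_)
  have h1 : ContinuousAt (fun ε : ℝ => Complex.Gamma (fp t) * (1 / zz n σ ε) ^ (fp t) * GG T Δ (fp t)) 0 := by
    have h2 : ContinuousAt (fun ε : ℝ => 1 / zz n σ ε) 0 := by
      refine continuousAt_const.div ?_ (zz_ne hn hσ 0)
      unfold zz
      fun_prop
    exact (continuousAt_const.mul (h2.cpow continuousAt_const (inv_slit hn hσ 0))).mul continuousAt_const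
  exact h1.tendsto.mono_left nhdsWithin_le_nhds

/-! ## the value at `ε = 0` -/

theorem cpow_zz {n : ℕ} (hn : 1 ≤ n) (s : ℂ) :
    (1 / zz n 1 0) ^ s + (1 / zz n (-1) 0) ^ s =
      (n : ℂ) ^ (-s) * ((2 * (Real.pi : ℂ)) ^ (-s) * (2 * Complex.cos (Real.pi * s / 2))) := by
  have hpos : (0 : ℝ) < 2 * Real.pi * n := by
    have : (0 : ℝ) < n := by exact_mod_cast hn
    positivity
  have hne : ((2 * Real.pi * n : ℝ) : ℂ) ≠ 0 := by exact_mod_cast hpos.ne'
  have hn0 : (n : ℂ) ≠ 0 := by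
    have : n ≠ 0 := by omega
    exact_mod_cast this
  have hpi : (Real.pi : ℂ) ≠ 0 := by exact_mod_cast Real.pi_pos.ne'
  have h1 : 1 / zz n 1 0 = ((1 / (2 * Real.pi * n) : ℝ) : ℂ) * (-I) := by
    rw [zz]
    push_cast
    have h2 := I_ne_zero
    field_simp
    linear_combination (1 * 2 * (Real.pi : ℂ) * n) * I_sq
  have h2 : 1 / zz n (-1) 0 = ((1 / (2 * Real.pi * n) : ℝ) : ℂ) * I := by
    rw [zz]
    push_cast
    have h2 := I_ne_zero
    field_simp
    linear_combination (2 * (Real.pi : ℂ) * n) * I_sq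
  have hp' : 0 < 1 / (2 * Real.pi * n) := by positivity
  have h3 : (((1 / (2 * Real.pi * n) : ℝ) : ℂ) * (-I)) ^ s =
      ((2 * Real.pi * n : ℝ) : ℂ) ^ (-s) * cexp (-(Real.pi * s / 2) * I) := by
    rw [Complex.cpow_def_of_ne_zero (mul_ne_zero (by exact_mod_cast hp'.ne') (neg_ne_zero.2 I_ne_zero)),
      Complex.log_ofReal_mul hp' (neg_ne_zero.2 I_ne_zero), Complex.log_neg_I,
      Complex.cpow_def_of_ne_zero hne, ← Complex.exp_add, ← Complex.ofReal_log hpos.le, one_div, Real.log_inv]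
    congr 1
    push_cast
    ring
  have h4 : (((1 / (2 * Real.pi * n) : ℝ) : ℂ) * I) ^ s =
      ((2 * Real.pi * n : ℝ) : ℂ) ^ (-s) * cexp ((Real.pi * s / 2) * I) := by
    rw [Complex.cpow_def_of_ne_zero (mul_ne_zero (by exact_mod_cast hp'.ne') I_ne_zero),
      Complex.log_ofReal_mul hp' I_ne_zero, Complex.log_I,
      Complex.cpow_def_of_ne_zero hne, ← Complex.exp_add, ← Complex.ofReal_log hpos.le, one_div, Real.log_inv]
    congr 1
    push_cast
    ring
  have h5 : ((2 * Real.pi * n : ℝ) : ℂ) ^ (-s) = (2 * (Real.pi : ℂ)) ^ (-s) * (n : ℂ) ^ (-s) := by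
    have := Complex.mul_cpow_ofReal_nonneg (a := 2 * Real.pi) (b := n) (by positivity) (Nat.cast_nonneg n) (-s)
    push_cast at this ⊢
    exact this
  rw [h1, h2, h3, h4, h5, Complex.cos, mul_div_cancel₀ _ (two_ne_zero)]
  ring

theorem In_eq {T Δ : ℝ} (hΔ : 1 ≤ Δ) {n : ℕ} (hn : 1 ≤ n) : In T Δ n =
    (∫ t : ℝ, Complex.Gamma (fp t) * (1 / zz n 1 0) ^ (fp t) * GG T Δ (fp t)) +
      ∫ t : ℝ, Complex.Gamma (fp t) * (1 / zz n (-1) 0) ^ (fp t) * GG T Δ (fp t) := by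
  have hint : ∀ σ : ℝ, σ = 1 ∨ σ = -1 →
      Integrable (fun t : ℝ => Complex.Gamma (fp t) * (1 / zz n σ 0) ^ (fp t) * GG T Δ (fp t)) := fun σ hσ =>
    (bd_int hΔ).mono' (meas_eps T Δ hn hσ 0) (Eventually.of_forall fun t => bound_eps T Δ hn hσ 0 t)
  rw [← integral_add (hint 1 (Or.inl rfl)) (hint (-1) (Or.inr rfl)), In]
  refine integral_congr_ae (Eventually.of_forall fun t => ?_)
  simp only
  have h := cpow_zz hn (fp t)
  rw [← add_mul, ← mul_add, h, XX]
  ring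

theorem qs_mel : StMel := by
  intro T Δ hΔ n hn
  rw [In_eq hΔ hn]
  refine ((lim_sigma hΔ hn (Or.inl rfl)).add (lim_sigma hΔ hn (Or.inr rfl))).congr' ?_
  filter_upwards [self_mem_nhdsWithin] with ε hε
  rw [main_eps hΔ hε, main_eps hΔ hε, mul_add]

end Pool.Agent.W372.QS
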